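import Mathlib

set_option autoImplicit false

open Set Filter Topology

namespace Pool.Agent.Results.MP_23bd8d_gt.LindelofPowers

universe u

/-- `C_p(X)`: the continuous real functions with the topology of pointwise convergence. -/
abbrev Cp (X : Type u) [TopologicalSpace X] : Type u := {f : X → ℝ | Continuous f}

/-- countable tightness -/
def CountablyTight (Z : Type u) [TopologicalSpace Z] : Prop :=
  ∀ (A : Set Z) (z : Z), z ∈ closure A → ∃ B ⊆ A, B.Countable ∧ z ∈ closure B

variable {X : Type u} [TopologicalSpace X]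

lemma cont_eval (x : X) : Continuous fun g : Cp X => g.1 x :=
  (continuous_apply x).comp continuous_subtype_val

lemma mem_cl {A : Set (Cp X)} {z : Cp X} : z ∈ closure A ↔
    ∀ (K : Finset X) (ε : ℝ), 0 < ε → ∃ a ∈ A, ∀ x ∈ K, |a.1 x - z.1 x| < ε := by
  constructor
  · intro h K ε hε
    have hopen : IsOpen {g : Cp X | ∀ x ∈ K, |g.1 x - z.1 x| < ε} := by
      have : {g : Cp X | ∀ x ∈ K, |g.1 x - z.1 x| < ε}
          = ⋂ x ∈ K, {g : Cp X | |g.1 x - z.1 x| < ε} := by
        ext g; simp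
      rw [this]
      refine isOpen_biInter_finset fun x _ => ?_
      exact isOpen_lt (((cont_eval x).sub continuous_const).abs) continuous_const
    obtain ⟨a, ha1, ha2⟩ := mem_closure_iff.1 h _ hopen (by
      intro x _; simpa using hε)
    exact ⟨a, ha2, ha1⟩
  · intro h
    rw [mem_closure_iff]
    intro O hO hz
    obtain ⟨W, hW, rfl⟩ := isOpen_induced_iff.1 hO
    obtain ⟨I, v, hv, hsub⟩ := isOpen_pi_iff.1 hW z.1 hz
    have : ∀ x ∈ I, ∃ ε > 0, Metric.ball (z.1 x) ε ⊆ v x := fun x hx =>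
      Metric.isOpen_iff.1 (hv x hx).1 _ (hv x hx).2
    choose! e he1 he2 using this
    obtain ⟨ε, hε, hεe⟩ : ∃ ε > 0, ∀ x ∈ I, ε ≤ e x := by
      rcases I.eq_empty_or_nonempty with rfl | hne
      · exact ⟨1, one_pos, by simp⟩
      · obtain ⟨x, hx, hmin⟩ := I.exists_min_image e hne
        exact ⟨e x, he1 x hx, hmin⟩
    obtain ⟨a, ha, hax⟩ := h I ε hε
    refine ⟨a, hsub ?_, ha⟩
    intro x hx
    apply he2 x hx
    rw [Metric.mem_ball, Real.dist_eq]
    exact lt_of_lt_of_le (hax x hx) (hεe x hx)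

/-- the coding of two numbers tending to zero by isolated points of a set -/
lemma coding (m : ℕ → ℝ) (hm0 : ∀ i, 0 < m i) (hm1 : ∀ i, m i ≤ 1) :
    ∃ s e : ℕ → ℝ, (∀ i, 0 < e i) ∧ (∀ i, m i ≤ s i) ∧ (∀ i, s i ≤ 3 * m i) ∧
      ∀ i j, |s j - s i| < e i → j = i := by
  have h : ∀ i, ∃ n : ℕ, (1 / 2 : ℝ) ^ (n + 1) < m i ∧ m i ≤ (1 / 2 : ℝ) ^ n := fun i =>
    exists_nat_pow_near_of_lt_one (hm0 i) (hm1 i) (by norm_num) (by norm_num)
  choose k hk1 hk2 using h
  have hp : ∀ n : ℕ, (0 : ℝ) < (1 / 2) ^ n := fun n => by positivity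
  have hle : ∀ a b : ℕ, a ≤ b → (1 / 2 : ℝ) ^ b ≤ (1 / 2) ^ a := fun a b hab =>
    pow_le_pow_of_le_one (by norm_num) (by norm_num) hab
  refine ⟨fun i => (1 / 2) ^ k i * (1 + (1 / 2) ^ (i + 1)),
    fun i => (1 / 2) ^ k i * (1 / 2) ^ (i + 2), fun i => by positivity, ?_, ?_, ?_⟩
  · intro i
    have := hk2 i
    have h1 := hp (k i)
    have h2 := hp (i + 1)
    nlinarith [mul_pos h1 h2]
  · intro i
    have h1 := hk1 i
    rw [pow_succ] at h1
    have h2 : (1 / 2 : ℝ) ^ (i + 1) ≤ (1 / 2) ^ 1 := hle 1 (i + 1) (by omega)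
    have h3 := hp (k i)
    simp only [pow_one] at h2
    nlinarith [mul_le_mul_of_nonneg_left h2 h3.le]
  · intro i j hij
    by_contra hne
    rw [abs_lt] at hij
    dsimp only at hij
    have hi := hp (k i)
    have hj := hp (k j)
    have ei : (1 / 2 : ℝ) ^ (i + 1) ≤ 1 / 2 := by
      have := hle 1 (i + 1) (by omega); simpa using this
    have ej : (1 / 2 : ℝ) ^ (j + 1) ≤ 1 / 2 := by
      have := hle 1 (j + 1) (by omega); simpa using this
    have ei2 : (1 / 2 : ℝ) ^ (i + 2) ≤ 1 / 4 := by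
      have := hle 2 (i + 2) (by omega); norm_num at this ⊢; linarith
    have pi1 := hp (i + 1)
    have pj1 := hp (j + 1)
    have pi2 := hp (i + 2)
    rcases lt_trichotomy (k j) (k i) with hk | hk | hk
    · have h1 : (1 / 2 : ℝ) ^ k i ≤ (1 / 2) ^ (k j + 1) := hle _ _ hk
      rw [pow_succ] at h1
      have a1 := mul_le_mul_of_nonneg_left ei hi.le
      have a2 := mul_le_mul_of_nonneg_left ei2 hi.le
      have a3 := mul_pos hj pj1
      nlinarith [hij.2]
    · have hk' : (1 / 2 : ℝ) ^ k j = (1 / 2) ^ k i := by rw [hk]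
      rcases lt_or_gt_of_ne hne with hji | hji
      · have h2 : (1 / 2 : ℝ) ^ (i + 1) ≤ (1 / 2) ^ (j + 2) := hle _ _ (by omega)
        have h3 : (1 / 2 : ℝ) ^ (j + 2) = (1 / 2) ^ (j + 1) * (1 / 2) := pow_succ _ _
        have h4 : (1 / 2 : ℝ) ^ (i + 2) = (1 / 2) ^ (i + 1) * (1 / 2) := pow_succ _ _
        have h5 := hij.2
        rw [hk'] at h5
        have h6 : (1 / 2 : ℝ) ^ (j + 1) - (1 / 2) ^ (i + 1) ≥ (1 / 2) ^ (i + 2) := by nlinarith
        have h7 := mul_le_mul_of_nonneg_left h6 hi.le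
        nlinarith
      · have h2 : (1 / 2 : ℝ) ^ (j + 1) ≤ (1 / 2) ^ (i + 2) := hle _ _ (by omega)
        have h4 : (1 / 2 : ℝ) ^ (i + 2) = (1 / 2) ^ (i + 1) * (1 / 2) := pow_succ _ _
        have h5 := hij.1
        rw [hk'] at h5
        have h6 : (1 / 2 : ℝ) ^ (i + 1) - (1 / 2) ^ (j + 1) ≥ (1 / 2) ^ (i + 2) := by nlinarith
        have h7 := mul_le_mul_of_nonneg_left h6 hi.le
        nlinarith
    · have h1 : (1 / 2 : ℝ) ^ k j ≤ (1 / 2) ^ (k i + 1) := hle _ _ hk
      rw [pow_succ] at h1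
      have a1 := mul_le_mul_of_nonneg_left ej hj.le
      have a2 := mul_le_mul_of_nonneg_left ei2 hi.le
      have a3 := mul_pos hi pi1
      nlinarith [hij.1]

/-- the hypothesis on the countable discrete sets gives sequences in countable sets -/
lemma count_seq (H : ∀ D : Set (Cp X), D.Countable → DiscreteTopology D →
      FrechetUrysohnSpace (closure D)) {B : Set (Cp X)} (hB : B.Countable) {z : Cp X}
    (hz : z ∈ closure B) : ∃ v : ℕ → Cp X, (∀ n, v n ∈ B) ∧ Tendsto v atTop (𝓝 z) := by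
  classical
  by_cases hzB : z ∈ B
  · exact ⟨fun _ => z, fun _ => hzB, tendsto_const_nhds⟩
  rcases isEmpty_or_nonempty X with hX | ⟨⟨x0⟩⟩
  · obtain ⟨a, ha, -⟩ := mem_cl.1 hz ∅ 1 one_pos
    have : a = z := Subtype.ext (funext fun x => (hX.false x).elim)
    exact absurd (this ▸ ha) hzB
  have hne : B.Nonempty := by
    obtain ⟨a, ha, -⟩ := mem_cl.1 hz ∅ 1 one_pos
    exact ⟨a, ha⟩
  obtain ⟨b, rfl⟩ := hB.exists_eq_range hne
  let r : ℕ → ℝ := fun i => (b i).1 x0 - z.1 x0
  let m : ℕ → ℝ := fun i => max (min |r i| 1) (1 / ((i : ℝ) + 1))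
  have hinv : ∀ i : ℕ, (0 : ℝ) < 1 / ((i : ℝ) + 1) := fun i => Nat.one_div_pos_of_nat
  have hm0 : ∀ i, 0 < m i := fun i => lt_max_of_lt_right (hinv i)
  have hm1 : ∀ i, m i ≤ 1 := by
    intro i
    refine max_le (min_le_right _ _) ?_
    rw [div_le_one (by positivity)]
    have : (0 : ℝ) ≤ i := Nat.cast_nonneg i
    linarith
  obtain ⟨s, e, he, hs1, hs2, hs3⟩ := coding m hm0 hm1
  let d : ℕ → Cp X := fun i => ⟨fun x => (b i).1 x - r i + s i,
    ((b i).2.sub continuous_const).add continuous_const⟩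
  have hd0 : ∀ i, (d i).1 x0 = z.1 x0 + s i := by
    intro i
    change (b i).1 x0 - ((b i).1 x0 - z.1 x0) + s i = _
    ring
  have hdisc : DiscreteTopology (range d) := by
    rw [discreteTopology_iff_isOpen_singleton]
    rintro ⟨_, i, rfl⟩
    have hc : Continuous fun p : range d => p.1.1 x0 := (cont_eval x0).comp continuous_subtype_val
    have : ({⟨d i, i, rfl⟩} : Set (range d))
        = {p : range d | |p.1.1 x0 - (d i).1 x0| < e i} := by
      ext ⟨_, j, rfl⟩
      constructor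
      · intro h
        have h' : d j = d i := congrArg Subtype.val h
        change |(d j).1 x0 - (d i).1 x0| < e i
        rw [h']; simpa using he i
      · intro h
        change |(d j).1 x0 - (d i).1 x0| < e i at h
        rw [hd0, hd0] at h
        have hji : j = i := hs3 i j (by simpa using h)
        subst hji
        rfl
    rw [this]
    exact isOpen_lt ((hc.sub continuous_const).abs) continuous_const
  have hzd : z ∈ closure (range d) := by
    rw [mem_cl]
    intro K ε hε
    obtain ⟨N, hN⟩ := exists_nat_one_div_lt (show (0 : ℝ) < ε / 6 by positivity)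
    have h1 : z ∈ closure (range b \ (b '' {i | i < N})) := by
      have hfin : (b '' {i | i < N}).Finite := (finite_lt_nat N).image b
      have h2 : range b ⊆ (range b \ (b '' {i | i < N})) ∪ (b '' {i | i < N}) := by
        intro y hy
        by_cases hy2 : y ∈ b '' {i | i < N}
        · exact Or.inr hy2
        · exact Or.inl ⟨hy, hy2⟩
      have h3 := closure_mono h2 hz
      rw [closure_union, hfin.isClosed.closure_eq] at h3
      rcases h3 with h3 | ⟨i, -, hi⟩
      · exact h3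
      · exact absurd ⟨i, hi⟩ hzB
    obtain ⟨_, ⟨⟨i, rfl⟩, hiN⟩, hi⟩ := mem_cl.1 h1 (insert x0 K) (ε / 6) (by positivity)
    have hiN' : N ≤ i := by
      by_contra hlt
      exact hiN ⟨i, not_le.1 hlt, rfl⟩
    have hr : |r i| < ε / 6 := hi x0 (Finset.mem_insert_self _ _)
    have hinvi : 1 / ((i : ℝ) + 1) < ε / 6 := by
      refine lt_of_le_of_lt ?_ hN
      apply one_div_le_one_div_of_le (by positivity)
      have : (N : ℝ) ≤ i := Nat.cast_le.2 hiN'
      linarith
    have hmi : m i < ε / 6 := max_lt (lt_of_le_of_lt (min_le_left _ _) hr) hinvi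
    refine ⟨d i, ⟨i, rfl⟩, fun x hx => ?_⟩
    have hbx := hi x (Finset.mem_insert_of_mem hx)
    have : (d i).1 x - z.1 x = ((b i).1 x - z.1 x) - r i + s i := by
      change (b i).1 x - r i + s i - z.1 x = _
      ring
    rw [this]
    have hs0 : 0 < s i := lt_of_lt_of_le (hm0 i) (hs1 i)
    rw [abs_lt] at hbx hr ⊢
    have := hs2 i
    constructor <;> linarith [hbx.1, hbx.2, hr.1, hr.2]
  have := H (range d) (countable_range d) hdisc
  have hcl : (⟨z, hzd⟩ : closure (range d)) ∈ closure {p : closure (range d) | p.1 ∈ range d} := by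
    rw [closure_subtype]
    convert hzd using 2
    ext y
    constructor
    · rintro ⟨p, hp, rfl⟩; exact hp
    · intro hy; exact ⟨⟨y, subset_closure hy⟩, hy, rfl⟩
  obtain ⟨w, hw1, hw2⟩ := mem_closure_iff_seq_limit.1 hcl
  have hw3 : Tendsto (fun n => (w n).1) atTop (𝓝 z) :=
    (continuous_subtype_val.tendsto _).comp hw2
  choose i hi using hw1
  have hw4 : Tendsto (fun n => (d (i n))) atTop (𝓝 z) := by
    refine hw3.congr fun n => ?_
    exact (hi n).symm
  have hev : ∀ x, Tendsto (fun n => (d (i n)).1 x) atTop (𝓝 (z.1 x)) := fun x =>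
    ((cont_eval x).tendsto _).comp hw4
  have hs0 : Tendsto (fun n => s (i n)) atTop (𝓝 0) := by
    have := (hev x0).sub_const (z.1 x0)
    simp only [hd0, add_sub_cancel_left, sub_self] at this
    exact this
  have hmz : Tendsto (fun n => m (i n)) atTop (𝓝 0) :=
    squeeze_zero (fun n => (hm0 _).le) (fun n => hs1 _) hs0
  have hrz : Tendsto (fun n => r (i n)) atTop (𝓝 0) := by
    rw [Metric.tendsto_atTop] at hmz ⊢
    intro ε hε
    obtain ⟨N, hN⟩ := hmz (min ε 1) (lt_min hε one_pos)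
    refine ⟨N, fun n hn => ?_⟩
    have h1 := hN n hn
    rw [Real.dist_eq, sub_zero, abs_of_pos (hm0 _)] at h1
    rw [Real.dist_eq, sub_zero]
    have h2 : min |r (i n)| 1 < min ε 1 := lt_of_le_of_lt (le_max_left _ _) h1
    by_contra hcon
    rw [not_lt] at hcon
    have : min ε 1 ≤ min |r (i n)| 1 := min_le_min hcon le_rfl
    linarith
  refine ⟨fun n => b (i n), fun n => ⟨_, rfl⟩, ?_⟩
  rw [tendsto_subtype_rng, tendsto_pi_nhds]
  intro x
  have h := ((hev x).add hrz).sub hs0
  simp only [add_zero, sub_zero] at h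
  refine h.congr fun n => ?_
  change (b (i n)).1 x - r (i n) + s (i n) + r (i n) - s (i n) = (b (i n)).1 x
  ring

lemma fu_of_tight (H : ∀ D : Set (Cp X), D.Countable → DiscreteTopology D →
      FrechetUrysohnSpace (closure D)) (ht : CountablyTight (Cp X)) :
    FrechetUrysohnSpace (Cp X) := by
  refine ⟨fun A z hz => ?_⟩
  obtain ⟨B, hBA, hB, hzB⟩ := ht A z hz
  obtain ⟨v, hv1, hv2⟩ := count_seq H hB hzB
  exact ⟨v, fun n => hBA (hv1 n), hv2⟩

lemma tight_of_fu (Z : Type u) [TopologicalSpace Z] [FrechetUrysohnSpace Z] :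
    CountablyTight Z := by
  intro A z hz
  obtain ⟨v, hv1, hv2⟩ := mem_closure_iff_seq_limit.1 hz
  refine ⟨range v, ?_, countable_range v, ?_⟩
  · rintro _ ⟨n, rfl⟩; exact hv1 n
  · exact mem_closure_of_tendsto hv2 (Eventually.of_forall fun n => ⟨n, rfl⟩)

lemma tight_of_lindelof (hL : ∀ n : ℕ, LindelofSpace (Fin n → X)) : CountablyTight (Cp X) := by
  classical
  intro A z hz
  rcases isEmpty_or_nonempty X with hX | ⟨⟨x0⟩⟩
  · obtain ⟨a, ha, -⟩ := mem_cl.1 hz ∅ 1 one_pos
    have : a = z := Subtype.ext (funext fun x => (hX.false x).elim)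
    exact ⟨{z}, by simpa [this] using ha, countable_singleton z, subset_closure rfl⟩
  let O : ℕ → A → Set X := fun n g => {x | |g.1.1 x - z.1 x| < 1 / ((n : ℝ) + 1)}
  have hO : ∀ n g, IsOpen (O n g) := fun n g =>
    isOpen_lt ((g.1.2.sub z.2).abs) continuous_const
  have key : ∀ n : ℕ, ∃ R : Set A, R.Countable ∧
      (univ : Set (Fin n → X)) ⊆ ⋃ g ∈ R, {y : Fin n → X | ∀ i, y i ∈ O n g} := by
    intro n
    have := hL n
    refine isLindelof_univ.elim_countable_subcover _ ?_ ?_
    · intro g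
      have : {y : Fin n → X | ∀ i, y i ∈ O n g} = ⋂ i, {y : Fin n → X | y i ∈ O n g} := by
        ext y; simp
      rw [this]
      exact isOpen_iInter_of_finite fun i => (hO n g).preimage (continuous_apply i)
    · intro y _
      obtain ⟨a, ha, hax⟩ := mem_cl.1 hz (Finset.univ.image y) (1 / ((n : ℝ) + 1))
        Nat.one_div_pos_of_nat
      exact mem_iUnion.2 ⟨⟨a, ha⟩, fun i => hax _ (Finset.mem_image_of_mem _ (Finset.mem_univ i))⟩
  choose R hR1 hR2 using key
  refine ⟨⋃ n, Subtype.val '' (R n), ?_, countable_iUnion fun n => (hR1 n).image _, ?_⟩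
  · intro a ha
    obtain ⟨n, g, -, rfl⟩ := mem_iUnion.1 ha
    exact g.2
  rw [mem_cl]
  intro K ε hε
  obtain ⟨N, hN⟩ := exists_nat_one_div_lt hε
  let M := max N K.card
  let y : Fin M → X := fun i => K.toList.getD i x0
  obtain ⟨g, hg, hy⟩ : ∃ g ∈ R M, ∀ i, y i ∈ O M g := by
    have := hR2 M (mem_univ y)
    simpa using this
  refine ⟨g.1, mem_iUnion.2 ⟨M, g, hg, rfl⟩, fun x hx => ?_⟩
  obtain ⟨j, hj, hjx⟩ := List.mem_iff_getElem.1 (Finset.mem_toList.2 hx)
  have hjM : j < M := by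
    rw [Finset.length_toList] at hj
    exact lt_of_lt_of_le hj (le_max_right _ _)
  have h1 := hy ⟨j, hjM⟩
  have h2 : y ⟨j, hjM⟩ = x := by
    change K.toList.getD j x0 = x
    rw [List.getD_eq_getElem _ _ hj, hjx]
  rw [h2] at h1
  refine lt_trans (lt_of_lt_of_le h1 ?_) hN
  apply one_div_le_one_div_of_le (by positivity)
  have : (N : ℝ) ≤ M := Nat.cast_le.2 (le_max_left _ _)
  linarith

lemma finite_step {ι : Type u} {n : ℕ} (U : ι → Set (Fin n → X)) (hU : ∀ i, IsOpen (U i))
    (hc : (univ : Set (Fin n → X)) ⊆ ⋃ i, U i) [CompletelyRegularSpace X] (F : Finset X) :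
    ∃ (f : Cp X) (t : Finset ι), (∀ x ∈ F, f.1 x = 0) ∧
      ∀ y : Fin n → X, (∀ i, f.1 (y i) < 1) → ∃ j ∈ t, y ∈ U j := by
  classical
  have h1 : ∀ p : Fin n → F, ∃ j : ι, (fun i => (p i).1) ∈ U j := fun p =>
    mem_iUnion.1 (hc (mem_univ _))
  choose c hcU using h1
  have h2 : ∀ p : Fin n → F, ∃ v : Fin n → Set X, (∀ i, IsOpen (v i) ∧ (p i).1 ∈ v i) ∧
      Set.univ.pi v ⊆ U (c p) := fun p => isOpen_pi_iff'.1 (hU (c p)) _ (hcU p)
  choose v hv1 hv2 using h2
  let W : F → Set X := fun x => ⋂ (p : Fin n → F), ⋂ (i : Fin n), {y | p i = x → y ∈ v p i}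
  have hW : ∀ x, IsOpen (W x) := by
    intro x
    refine isOpen_iInter_of_finite fun p => isOpen_iInter_of_finite fun i => ?_
    by_cases h : p i = x
    · simpa [h] using (hv1 p i).1
    · simp [h]
  have hxW : ∀ x : F, x.1 ∈ W x := by
    intro x
    simp only [W, mem_iInter, mem_setOf_eq]
    intro p i hpi
    have := (hv1 p i).2
    rw [hpi] at this
    exact this
  let V : Set X := ⋃ x, W x
  have hV : IsOpen V := isOpen_iUnion hW
  have h3 : ∀ x : F, ∃ f : X → unitInterval, Continuous f ∧ f x.1 = 0 ∧ EqOn f 1 Vᶜ := by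
    intro x
    refine CompletelyRegularSpace.completely_regular x.1 Vᶜ hV.isClosed_compl ?_
    simp only [mem_compl_iff, not_not]
    exact mem_iUnion.2 ⟨x, hxW x⟩
  choose f hf1 hf2 hf3 using h3
  refine ⟨⟨fun y => ∏ x : F, ((f x y : unitInterval) : ℝ),
    continuous_finsetProd _ fun x _ => continuous_subtype_val.comp (hf1 x)⟩,
    Finset.univ.image c, ?_, ?_⟩
  · intro x hx
    exact Finset.prod_eq_zero (Finset.mem_univ (⟨x, hx⟩ : F)) (by simp [hf2])
  · intro y hy
    have hyV : ∀ i, y i ∈ V := by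
      intro i
      by_contra hcon
      have h4 : ∏ x : F, ((f x (y i) : unitInterval) : ℝ) = 1 := by
        refine Finset.prod_eq_one fun x _ => ?_
        rw [hf3 x hcon]
        simp
      have h5 := hy i
      change ∏ x : F, ((f x (y i) : unitInterval) : ℝ) < 1 at h5
      linarith
    choose p hp using fun i => mem_iUnion.1 (hyV i)
    refine ⟨c p, Finset.mem_image_of_mem _ (Finset.mem_univ _), hv2 p ?_⟩
    intro i _
    have := hp i
    simp only [W, mem_iInter, mem_setOf_eq] at this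
    exact this p i rfl

lemma lindelof_of_tight [CompletelyRegularSpace X] (ht : CountablyTight (Cp X)) (n : ℕ) :
    LindelofSpace (Fin n → X) := by
  classical
  refine ⟨isLindelof_of_countable_subcover ?_⟩
  intro ι U hU hc
  choose f t hf1 hf2 using finite_step U hU hc
  let z : Cp X := ⟨fun _ => 0, continuous_const⟩
  have hz : z ∈ closure (range f) := by
    rw [mem_cl]
    intro K ε hε
    refine ⟨f K, ⟨K, rfl⟩, fun x hx => ?_⟩
    rw [hf1 K x hx]
    simpa [z] using hε
  obtain ⟨B, hB1, hB2, hB3⟩ := ht _ _ hz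
  have hB1' : ∀ b ∈ B, ∃ F, f F = b := fun b hb => hB1 hb
  choose! G hG using hB1'
  refine ⟨⋃ b ∈ B, (t (G b) : Set ι), hB2.biUnion fun b _ => (t (G b)).countable_toSet, ?_⟩
  intro y _
  obtain ⟨b, hb, hby⟩ := mem_cl.1 hB3 (Finset.univ.image y) 1 one_pos
  obtain ⟨j, hj, hyj⟩ := hf2 (G b) y (by
    intro i
    have h1 := hby (y i) (Finset.mem_image_of_mem _ (Finset.mem_univ i))
    rw [hG b hb]
    have h2 : b.1 (y i) - z.1 (y i) = b.1 (y i) := by simp [z]
    rw [h2] at h1
    exact lt_of_le_of_lt (le_abs_self _) h1)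
  exact mem_iUnion₂.2 ⟨j, mem_iUnion₂.2 ⟨b, hb, hj⟩, hyj⟩

/-- Let `X` be Tychonoff and let the closure of every COUNTABLE discrete subset of `C_p(X)` be
Frechet-Urysohn.  Then `C_p(X)` is Frechet-Urysohn if and only if it has countable tightness, and
if and only if all finite powers of `X` are Lindelof. -/
theorem result (X : Type u) [TopologicalSpace X] [T35Space X]
    (H : ∀ D : Set {f : X → ℝ | Continuous f}, D.Countable → DiscreteTopology D →
      FrechetUrysohnSpace (closure D)) :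
    (FrechetUrysohnSpace {f : X → ℝ | Continuous f} ↔ ∀ n : ℕ, LindelofSpace (Fin n → X)) ∧
    (FrechetUrysohnSpace {f : X → ℝ | Continuous f} ↔
      CountablyTight {f : X → ℝ | Continuous f}) := by
  constructor
  · constructor
    · intro h n
      exact lindelof_of_tight (tight_of_fu _) n
    · intro h
      exact fu_of_tight H (tight_of_lindelof h)
  · constructor
    · intro h
      exact tight_of_fu _
    · intro h
      exact fu_of_tight H h

end Pool.Agent.Results.MP_23bd8d_gt.LindelofPowers
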